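import Pool.Agent.helper59.FI4.SpecI

set_option autoImplicit false

namespace Pool.Agent.FI4I

open Pool.Agent.helper58.DC Pool.Agent.DI Pool.Agent.GR Pool.Agent.OB Pool.Agent.DR Pool.Agent.FI Pool.Agent.FI3 Pool.Agent.FI4

theorem BKV (hCFA : CFA_stmt) (hFOV3 : FOV3_stmt) (hFSI : FSI_stmt) (hFEQ : FEQ_stmt) : BKV_stmt := by
  intro p M hS G _ _ D x θ χ hRt Q N hMid g hQ
  have hcomD : ∀ a ∈ cjS g D, ∀ b ∈ cjS g D, a * b = b * a := by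
    intro a ha b hb
    rw [mem_cjS] at ha hb
    have h := hRt.com _ ha _ hb
    have h2 : g⁻¹ * (a * b) * g = g⁻¹ * (b * a) * g := by
      calc g⁻¹ * (a * b) * g = (g⁻¹ * a * g) * (g⁻¹ * b * g) := by group
        _ = (g⁻¹ * b * g) * (g⁻¹ * a * g) := h
        _ = g⁻¹ * (b * a) * g := by group
    exact mul_left_cancel (mul_right_cancel h2)
  have hDcz : cjS g D ≤ cz (cjS g D) := le_cz_of_com hcomD
  have hczQ : cz (cjS g D) ≤ cz Q := cz_mono hQ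
  have hczN : cz (cjS g D) ≤ N := hczQ.trans hMid.cle
  have hDN : cjS g D ≤ N := hDcz.trans hczN
  have hczH : cz (cjS g D) ≤ N ⊓ nz (cjS g D) := le_inf hczN (cz_le_nz _)
  refine ⟨hDN, hczN, hczH, ?_⟩
  intro ζ hζ
  have hnz : nz (cjS g D) ≤ nz (cz (cjS g D)) := by
    intro y hy
    obtain ⟨_, h1, -⟩ := hFEQ G M y 1 (cjS g D) (cjS g D) ⊤ θ θ θ
    obtain ⟨_, h2, -⟩ := hFEQ G M y 1 (cz (cjS g D)) (cz (cjS g D)) ⊤ θ θ θ
    have h3 : cjS y (cjS g D) = cjS g D := h1.2.2.2.1.mpr hy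
    apply h2.2.2.2.1.mp
    rw [← h1.1, h3]
  obtain ⟨θ₁, hθ₁, e, he, hov⟩ := (hCFA G (cz (cjS g D)) (N ⊓ nz (cjS g D)) hczH (inf_le_right.trans hnz)).1 ζ hζ
  have hpD : IsPGroup p (cjS g D) := cj_pgroup g hRt.dfa.pgrp
  have hSB : SB M (N ⊓ nz (cjS g D)) ζ θ₁ :=
    (hFOV3 p M hS G (cjS g D) (N ⊓ nz (cjS g D)) (N ⊓ nz (cjS g D)) hpD (hDcz.trans hczH) hczH inf_le_right le_rfl
      ζ hζ θ₁ hθ₁ e he hov).1
  refine ⟨θ₁, hθ₁, hSB.symm, ?_⟩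
  refine (hFSI p M hS G (N ⊓ nz (cjS g D)) N θ₁ ζ).1 inf_le_left ?_ ?_ hSB.symm
  · intro y hy
    exact IrrOn_zero hθ₁ fun h => hy (hczH h)
  · intro y hy
    exact IrrOn_zero hζ hy

end Pool.Agent.FI4I
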